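import Pool.Agent.Q20.SkewPA.Outer
import Pool.Agent.H463R3.PSLn

/-!
MP_520f25_al, Q1: there is a finite skew brace whose additive group is perfect and whose
multiplicative group is almost simple but not perfect.

The skew brace is a semidirect product of skew braces `N ⋊ Γ`.

* `N` is the trivial skew brace on the simple group `S = PSL₁₅(16)` (both operations are the
  multiplication of `S`); its automorphisms are the automorphisms of `S`.
* `Γ` is a skew brace with the additive group `A₅` and the multiplicative group
  `C₁₅ ⋊ C₄ ≅ ΓL₁(16)`: this group embeds in `S₅ × S₅` as the group of the pairs `(a, b)` of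
  permutations of the same sign, with `a` in the affine group `F₂₀` and `b` in a subgroup `S₃` which
  fixes two points, and acts regularly on `A₅` by `x ↦ a x b⁻¹`, because of the exact
  factorization `S₅ = F₂₀ S₃`.
* `Γ` acts on `S` by the diagonal and field automorphisms, so that `S ⋊ Γ = PΓL₁₅(16)`.

The additive group is `PSL₁₅(16) × A₅`, the multiplicative group is `PΓL₁₅(16)`.
-/

set_option autoImplicit false

open Q20.SkewPA commutatorElement

namespace Pool.Agent.Results.MP_520f25_al.SkewBraceExists

/-- A skew brace: a set with two group structures, written additively (but not necessarily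
commutative) and multiplicatively, such that `a (b + c) = a b - a + a c`. -/
class SkewBrace (B : Type) extends AddGroup B, Group B where
  /-- the compatibility of the two structures -/
  brace : ∀ a b c : B, a * (b + c) = a * b - a + a * c

/-- A group is almost simple if it has a nonabelian simple normal subgroup with trivial
centralizer. -/
def IsAlmostSimple (G : Type) [Group G] : Prop :=
  ∃ S : Subgroup G, S.Normal ∧ IsSimpleGroup S ∧ (∃ a b : S, a * b ≠ b * a) ∧
    Subgroup.centralizer (S : Set G) = ⊥

/-- The multiplicative group `PSL₁₅(16) ⋊ Γ`. -/
abbrev BB : Type := PSL ⋊[act] Gam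

/-- The underlying bijection with the additive group `PSL₁₅(16) × A₅`. -/
noncomputable def eqv : BB ≃ Additive (PSL × alternatingGroup (Fin 5)) where
  toFun x := Additive.ofMul (x.left, altEquiv x.right)
  invFun y := ⟨y.toMul.1, altEquiv.symm y.toMul.2⟩
  left_inv x := by
    apply SemidirectProduct.ext
    · rfl
    · exact altEquiv.symm_apply_apply _
  right_inv y := by
    change Additive.ofMul (y.toMul.1, altEquiv (altEquiv.symm y.toMul.2)) = y
    rw [Equiv.apply_symm_apply]
    rfl

noncomputable instance : AddGroup BB := eqv.addGroup

lemma eqv_add (x y : BB) : eqv (x + y) = eqv x + eqv y := eqv.apply_symm_apply _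

lemma eqv_sub (x y : BB) : eqv (x - y) = eqv x - eqv y := eqv.apply_symm_apply _

noncomputable instance : SkewBrace BB where
  brace a b c := by
    apply eqv.injective
    rw [eqv_add, eqv_sub]
    have h1 : (eqv (b + c)) = eqv b + eqv c := eqv_add b c
    have h2 : (b + c).left = b.left * c.left := congrArg (fun y => y.toMul.1) h1
    have h3 : altEquiv (b + c).right = altEquiv b.right * altEquiv c.right :=
      congrArg (fun y => y.toMul.2) h1
    apply Additive.toMul.injective
    apply Prod.ext
    · change a.left * act a.right (b + c).left =
        a.left * act a.right b.left / a.left * (a.left * act a.right c.left)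
      rw [h2, map_mul, div_eq_mul_inv]
      simp only [mul_assoc, inv_mul_cancel_left]
    · change altEquiv (a.right * (b + c).right) =
        altEquiv (a.right * b.right) / altEquiv a.right * altEquiv (a.right * c.right)
      rw [alt_brace _ _ _ _ h3, div_eq_mul_inv]

lemma simple_PSL : IsSimpleGroup PSL :=
  Pool.Agent.H463R3.PSLn.isSimpleGroup_PSL (by rw [Fintype.card_fin]; norm_num)

lemma perfect_PSL : Group.IsPerfect PSL :=
  ⟨Pool.Agent.H463R3.PSLn.PSL_commutator_eq_top (by rw [Fintype.card_fin]; norm_num)⟩

lemma center_PSL : Subgroup.center PSL = ⊥ := by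
  have h1 := simple_PSL
  rcases h1.eq_bot_or_eq_top_of_normal (Subgroup.center PSL) inferInstance with h | h
  · exact h
  · exfalso
    have h2 := perfect_PSL
    have h3 : commutator PSL = ⊥ := by
      rw [commutator_def, Subgroup.commutator_eq_bot_iff_le_centralizer, Subgroup.coe_top,
        Subgroup.centralizer_univ, h]
    have h4 := h2.commutator_eq_top
    rw [h3] at h4
    have h5 : Nontrivial (Subgroup PSL) := Subgroup.nontrivial_iff.2 h1.toNontrivial
    exact bot_ne_top h4

lemma perfect_A5 : Group.IsPerfect (alternatingGroup (Fin 5)) := by
  have h1 : IsSimpleGroup (alternatingGroup (Fin 5)) := alternatingGroup.isSimpleGroup (by rw [Nat.card_eq_fintype_card, Fintype.card_fin])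
  refine ⟨?_⟩
  rcases h1.eq_bot_or_eq_top_of_normal (commutator (alternatingGroup (Fin 5)))
    inferInstance with h | h
  · exfalso
    have h2 : ∀ a b : alternatingGroup (Fin 5), a * b = b * a := by
      intro a b
      have h3 : ⁅a, b⁆ ∈ commutator (alternatingGroup (Fin 5)) :=
        Subgroup.commutator_mem_commutator (Subgroup.mem_top _) (Subgroup.mem_top _)
      rw [h, Subgroup.mem_bot, commutatorElement_eq_one_iff_mul_comm] at h3
      exact h3
    have h4 := h2 ⟨cA, by rw [Equiv.Perm.mem_alternatingGroup]; exact sign_cA⟩
      ⟨cB, by rw [Equiv.Perm.mem_alternatingGroup]; exact sign_cB⟩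
    have h5 : cA * cB = cB * cA := congrArg Subtype.val h4
    revert h5
    decide
  · exact h

lemma perfect_add : commutator (Multiplicative BB) = ⊤ := by
  have h1 := perfect_PSL
  have h2 := perfect_A5
  have h3 : Group.IsPerfect (PSL × alternatingGroup (Fin 5)) := by
    refine ⟨?_⟩
    rw [commutator_def, ← Subgroup.top_prod_top, Subgroup.commutator_prod_prod,
      ← commutator_def, ← commutator_def, h1.commutator_eq_top, h2.commutator_eq_top]
  let f : PSL × alternatingGroup (Fin 5) →* Multiplicative BB :=
    { toFun := fun y => Multiplicative.ofAdd (eqv.symm (Additive.ofMul y))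
      map_one' := by
        apply Multiplicative.toAdd.injective
        apply eqv.injective
        exact (eqv.apply_symm_apply _).trans (eqv.apply_symm_apply _).symm
      map_mul' := by
        intro x y
        apply Multiplicative.toAdd.injective
        apply eqv.injective
        change eqv (eqv.symm (Additive.ofMul (x * y))) =
          eqv (eqv.symm (Additive.ofMul x) + eqv.symm (Additive.ofMul y))
        rw [eqv_add, Equiv.apply_symm_apply, Equiv.apply_symm_apply, Equiv.apply_symm_apply]
        rfl }
  have hf : Function.Surjective f := by
    intro z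
    refine ⟨(eqv z.toAdd).toMul, ?_⟩
    apply Multiplicative.toAdd.injective
    exact eqv.symm_apply_apply _
  exact (Group.IsPerfect.ofSurjective hf).commutator_eq_top

lemma almostSimple : IsAlmostSimple BB := by
  let S : Subgroup BB := (SemidirectProduct.inl : PSL →* BB).range
  have hS : S = (SemidirectProduct.rightHom : BB →* Gam).ker :=
    SemidirectProduct.range_inl_eq_ker_rightHom
  let e : PSL ≃* S := MonoidHom.ofInjective SemidirectProduct.inl_injective
  have hsimple := simple_PSL
  refine ⟨S, ?_, ?_, ?_, ?_⟩
  · rw [hS]
    exact MonoidHom.normal_ker _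
  · exact (MulEquiv.isSimpleGroup_congr e).1 hsimple
  · by_contra hcon
    push Not at hcon
    have h1 : ∀ a b : PSL, a * b = b * a := by
      intro a b
      apply e.injective
      rw [map_mul, map_mul]
      exact hcon _ _
    have h2 : Subgroup.center PSL = ⊤ := by
      rw [eq_top_iff]
      intro a _
      rw [Subgroup.mem_center_iff]
      intro b
      exact h1 b a
    rw [center_PSL] at h2
    have h5 : Nontrivial (Subgroup PSL) := Subgroup.nontrivial_iff.2 hsimple.toNontrivial
    exact bot_ne_top h2
  · rw [eq_bot_iff]
    intro x hx
    rw [Subgroup.mem_centralizer_iff] at hx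
    have h1 : ∀ t : PSL, t * x.left = x.left * act x.right t := by
      intro t
      have h2 := hx (SemidirectProduct.inl t) ⟨t, rfl⟩
      have h3 := congrArg SemidirectProduct.left h2
      rw [SemidirectProduct.mul_left, SemidirectProduct.mul_left, SemidirectProduct.left_inl,
        SemidirectProduct.right_inl, map_one, MulAut.one_apply] at h3
      exact h3
    have h2 : x.right = 1 := by
      apply eq_one_of_inner x.right x.left
      intro t
      rw [mul_assoc, h1 t, inv_mul_cancel_left]
    have h3 : x.left ∈ Subgroup.center PSL := by
      rw [Subgroup.mem_center_iff]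
      intro t
      rw [h1 t, h2, map_one, MulAut.one_apply]
    rw [center_PSL, Subgroup.mem_bot] at h3
    rw [Subgroup.mem_bot]
    exact SemidirectProduct.ext h3 h2

lemma not_perfect : commutator BB ≠ ⊤ := by
  intro h
  let q : Gam →* Multiplicative (ZMod 4) :=
    { toFun := fun g => Multiplicative.ofAdd g.j
      map_one' := rfl
      map_mul' := fun _ _ => rfl }
  let f : BB →* Multiplicative (ZMod 4) := q.comp SemidirectProduct.rightHom
  have h1 : commutator BB ≤ f.ker := Abelianization.commutator_subset_ker f
  rw [h] at h1
  have h2 : (SemidirectProduct.inr (⟨0, 1⟩ : Gam) : BB) ∈ f.ker := h1 (Subgroup.mem_top _)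
  rw [MonoidHom.mem_ker] at h2
  have h3 : Multiplicative.ofAdd (1 : ZMod 4) = 1 := h2
  revert h3
  decide

lemma finite_BB : Finite BB := by
  have h1 : Finite SL := Subtype.finite
  have h2 : Finite PSL := inferInstance
  exact Finite.of_equiv _ eqv.symm

/-- There is a finite skew brace whose additive group is perfect and whose multiplicative group
is almost simple but not perfect. -/
theorem result : ∃ (B : Type) (_ : SkewBrace B), Finite B ∧
    commutator (Multiplicative B) = ⊤ ∧ IsAlmostSimple B ∧ commutator B ≠ ⊤ :=
  ⟨BB, inferInstance, finite_BB, perfect_add, almostSimple, not_perfect⟩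

end Pool.Agent.Results.MP_520f25_al.SkewBraceExists
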